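import Pool.Agent.P8H62.QC.Rou

/-!
# Project QC, package NBE: a normal basis modulo the maximal ideal
-/

set_option autoImplicit false

open Polynomial

namespace Pool.Agent.P8H62.QC

open Pool.Agent.P8H33.QC

/-- the ring of integers -/
def OO : Subring (PadicAlgCl 2) where
  carrier := {x | ‖x‖ ≤ 1}
  mul_mem' := by
    intro a b ha hb
    change ‖a * b‖ ≤ 1
    rw [norm_mul]
    exact mul_le_one₀ ha (norm_nonneg _) hb
  one_mem' := by
    change ‖(1 : PadicAlgCl 2)‖ ≤ 1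
    simp
  add_mem' := by
    intro a b ha hb
    exact (IsUltrametricDist.norm_add_le_max _ _).trans (max_le ha hb)
  zero_mem' := by
    change ‖(0 : PadicAlgCl 2)‖ ≤ 1
    simp
  neg_mem' := by
    intro a ha
    change ‖-a‖ ≤ 1
    rw [norm_neg]
    exact ha

theorem mem_OO (x : PadicAlgCl 2) : x ∈ OO ↔ ‖x‖ ≤ 1 := Iff.rfl

/-- the maximal ideal -/
def MM : Ideal OO where
  carrier := {x | ‖(x : PadicAlgCl 2)‖ < 1}
  add_mem' := by
    intro a b ha hb
    exact (IsUltrametricDist.norm_add_le_max _ _).trans_lt (max_lt ha hb)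
  zero_mem' := by
    change ‖((0 : OO) : PadicAlgCl 2)‖ < 1
    simp
  smul_mem' := by
    intro c x hx
    change ‖((c * x : OO) : PadicAlgCl 2)‖ < 1
    rw [Subring.coe_mul, norm_mul]
    calc ‖(c : PadicAlgCl 2)‖ * ‖(x : PadicAlgCl 2)‖ ≤ 1 * ‖(x : PadicAlgCl 2)‖ :=
          mul_le_mul_of_nonneg_right c.2 (norm_nonneg _)
      _ < 1 := by rw [one_mul]; exact hx

theorem mem_MM (x : OO) : x ∈ MM ↔ ‖(x : PadicAlgCl 2)‖ < 1 := Iff.rfl

theorem max_MM : MM.IsMaximal := by
  rw [Ideal.isMaximal_iff]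
  constructor
  · rw [mem_MM]
    simp
  · intro J x _ hx hxJ
    have hx1 : ‖(x : PadicAlgCl 2)‖ = 1 := by
      rw [mem_MM] at hx
      exact le_antisymm x.2 (not_lt.1 hx)
    have hx0 : (x : PadicAlgCl 2) ≠ 0 := by
      intro h
      rw [h, norm_zero] at hx1
      exact zero_ne_one hx1
    let y : OO := ⟨(x : PadicAlgCl 2)⁻¹, by rw [mem_OO, norm_inv, hx1, inv_one]⟩
    have hyx : y * x = 1 := Subtype.ext (inv_mul_cancel₀ hx0)
    rw [← hyx]
    exact J.mul_mem_left _ hxJ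

/-- the residue field -/
abbrev kk : Type := OO ⧸ MM

noncomputable instance instF : Field kk :=
  haveI := max_MM
  Ideal.Quotient.field MM

theorem two_zero : (2 : kk) = 0 := by
  have h : (Ideal.Quotient.mk MM) (2 : OO) = 0 := by
    rw [Ideal.Quotient.eq_zero_iff_mem, mem_MM]
    exact norm_two_lt
  rw [map_ofNat] at h
  exact h

instance instC : CharP kk 2 := CharTwo.of_one_ne_zero_of_two_eq_zero one_ne_zero two_zero

noncomputable instance instA : Algebra (ZMod 2) kk := ZMod.algebra kk 2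

/-- the reduction -/
noncomputable def red : OO →+* kk := Ideal.Quotient.mk MM

theorem red_zero {x : OO} (h : red x ≠ 0) : ‖(x : PadicAlgCl 2)‖ = 1 := by
  have h1 : x ∉ MM := fun h2 => h (Ideal.Quotient.eq_zero_iff_mem.2 h2)
  rw [mem_MM] at h1
  exact le_antisymm x.2 (not_lt.1 h1)

theorem coe_aeval (y : OO) (P : ℤ[X]) : ((aeval y P : OO) : PadicAlgCl 2) =
    aeval (y : PadicAlgCl 2) P := by
  rw [aeval_def, aeval_def]
  change OO.subtype _ = _
  rw [hom_eval₂]
  congr 1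

theorem red_aeval (y : OO) (P : ℤ[X]) : red (aeval y P) =
    aeval (red y) (P.map (Int.castRingHom (ZMod 2))) := by
  rw [aeval_def, aeval_def, hom_eval₂, eval₂_map]
  congr 1
  exact Subsingleton.elim _ _

theorem aeval_frob (z : kk) (P : (ZMod 2)[X]) (i : ℕ) :
    aeval (z ^ 2 ^ i) P = (aeval z P) ^ 2 ^ i := by
  induction i with
  | zero => simp
  | succ i ih =>
    rw [pow_succ, pow_mul, ← expand_aeval, ZMod.expand_card, map_pow, ih, ← pow_mul]

theorem nbe : S_NBE := by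
  classical
  intro l hl ζ hζ
  set n := 2 ^ l - 1 with hn
  have hodd : ¬ 2 ∣ n := odd_n hl
  have hn0 : n ≠ 0 := by
    rintro h
    exact hodd (h ▸ dvd_zero 2)
  have hζ1 : ‖ζ‖ = 1 := norm_root hn0 hζ.pow_eq_one
  let y : OO := ⟨ζ, hζ1.le⟩
  set z : kk := red y with hz
  have hzn : z ^ n = 1 := by
    rw [hz, ← map_pow]
    have : y ^ n = 1 := Subtype.ext hζ.pow_eq_one
    rw [this, map_one]
  have hzint : IsIntegral (ZMod 2) z :=
    IsIntegral.of_pow (Nat.pos_of_ne_zero hn0) (by rw [hzn]; exact isIntegral_one)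
  let F := IntermediateField.adjoin (ZMod 2) ({z} : Set kk)
  have hfd : FiniteDimensional (ZMod 2) F := IntermediateField.adjoin.finiteDimensional hzint
  obtain ⟨t, ht⟩ := exists_linearIndependent_algEquiv_apply (ZMod 2) F
  -- the Frobenius automorphisms
  let φ := FiniteField.frobeniusAlgEquivOfAlgebraic (ZMod 2) F
  have hφ : ∀ (i : ℕ) (x : F), ((φ ^ i) x : F) = x ^ 2 ^ i := by
    intro i x
    rw [AlgEquiv.coe_pow, FiniteField.coe_frobeniusAlgEquivOfAlgebraic_iterate, ZMod.card]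
  have hinj : ∀ i j : ℕ, i < l → j < l → φ ^ i = φ ^ j → i = j := by
    have hlt : ∀ i j : ℕ, i < j → j < l → φ ^ i ≠ φ ^ j := by
      intro i j hij hj h
      let z' : F := ⟨z, IntermediateField.mem_adjoin_simple_self _ _⟩
      have h1 := congrArg (fun ψ : F ≃ₐ[ZMod 2] F => ((ψ z' : F) : kk)) h
      simp only [hφ] at h1
      have h2 : z ^ 2 ^ i = z ^ 2 ^ j := by
        have e1 : ((z' ^ 2 ^ i : F) : kk) = z ^ 2 ^ i := rfl
        have e2 : ((z' ^ 2 ^ j : F) : kk) = z ^ 2 ^ j := rfl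
        rw [← e1, ← e2]
        exact h1
      have h3 : ζ ^ 2 ^ i = ζ ^ 2 ^ j := by
        by_contra hne
        have h4 := norm_sub_root hodd (a := ζ ^ 2 ^ i) (b := ζ ^ 2 ^ j)
          (by rw [← pow_mul, mul_comm, pow_mul, hζ.pow_eq_one, one_pow])
          (by rw [← pow_mul, mul_comm, pow_mul, hζ.pow_eq_one, one_pow]) hne
        have h5 : y ^ 2 ^ i - y ^ 2 ^ j ∈ MM := by
          rw [← Ideal.Quotient.eq_zero_iff_mem, map_sub, map_pow, map_pow, sub_eq_zero]
          exact h2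
        rw [mem_MM] at h5
        have h6 : ((y ^ 2 ^ i - y ^ 2 ^ j : OO) : PadicAlgCl 2) = ζ ^ 2 ^ i - ζ ^ 2 ^ j := rfl
        rw [h6, h4] at h5
        exact lt_irrefl _ h5
      have hjl : 2 ^ j < n := by
        have h7 : 2 ^ j ≤ 2 ^ (l - 1) := Nat.pow_le_pow_right (by norm_num) (by omega)
        have h8 : 2 ^ l = 2 * 2 ^ (l - 1) := by
          rw [← pow_succ']
          congr 1
          omega
        have h9 : 2 ≤ 2 ^ (l - 1) := by
          calc 2 = 2 ^ 1 := rfl
            _ ≤ 2 ^ (l - 1) := Nat.pow_le_pow_right (by norm_num) (by omega)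
        omega
      have hil : 2 ^ i < 2 ^ j := Nat.pow_lt_pow_right (by norm_num) hij
      have := hζ.pow_inj (hil.trans hjl) hjl h3
      omega
    intro i j hi hj h
    rcases lt_trichotomy i j with h1 | h1 | h1
    · exact absurd h (hlt i j h1 hj)
    · exact h1
    · exact absurd h.symm (hlt j i h1 hi)
  -- the polynomial
  obtain ⟨Pb, hPb⟩ : ∃ Pb : (ZMod 2)[X], aeval z Pb = (t : kk) := by
    have h1 : (t : kk) ∈ Algebra.adjoin (ZMod 2) ({z} : Set kk) := by
      rw [← IntermediateField.adjoin_simple_toSubalgebra_of_isAlgebraic hzint.isAlgebraic]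
      exact t.2
    rw [Algebra.adjoin_singleton_eq_range_aeval] at h1
    obtain ⟨g, hg⟩ := h1
    exact ⟨g, hg⟩
  obtain ⟨P, hP⟩ := Polynomial.map_surjective (Int.castRingHom (ZMod 2))
    (ZMod.ringHom_surjective _) Pb
  refine ⟨P, fun S hS hSn => ?_⟩
  have e1 : ∑ i ∈ S, aeval (ζ ^ 2 ^ i) P = ((∑ i ∈ S, aeval (y ^ 2 ^ i) P : OO) : PadicAlgCl 2) := by
    rw [AddSubmonoidClass.coe_finsetSum]
    refine Finset.sum_congr rfl fun i _ => ?_
    rw [coe_aeval]
    rfl
  rw [e1]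
  apply red_zero
  rw [map_sum]
  have e2 : ∀ i ∈ S, red (aeval (y ^ 2 ^ i) P) = (((φ ^ i) t : F) : kk) := by
    intro i _
    rw [red_aeval, hP, map_pow, ← hz, aeval_frob, hPb, hφ]
    rfl
  rw [Finset.sum_congr rfl e2]
  intro h0
  have h1 : ∑ i ∈ S, ((φ ^ i) t : F) = 0 := by
    apply Subtype.ext
    rw [AddSubmonoidClass.coe_finsetSum]
    exact h0
  have h2 : LinearIndependent (ZMod 2) (fun i : S => (φ ^ (i : ℕ)) t) := by
    refine ht.comp (fun i : S => φ ^ (i : ℕ)) ?_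
    intro i j h
    exact Subtype.ext (hinj i j (Finset.mem_range.1 (hS i.2)) (Finset.mem_range.1 (hS j.2)) h)
  rw [Fintype.linearIndependent_iff] at h2
  obtain ⟨i, hi⟩ := hSn
  have h3 := h2 (fun _ => 1) (by
    simp only [one_smul]
    rw [← h1]
    exact Finset.sum_coe_sort S (fun i => ((φ ^ i) t : F))) ⟨i, hi⟩
  exact one_ne_zero h3

end Pool.Agent.P8H62.QC
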