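import Pool.Agent.P8H33.QC.Stm2

/-!
# Project QC: roots of unity of odd order in `PadicAlgCl 2`, and package UNR
-/

set_option autoImplicit false

open Polynomial IntermediateField

namespace Pool.Agent.P8H62.QC

open Pool.Agent.P8H33.QC

theorem norm_gal (σ : PadicAlgCl 2 ≃ₐ[ℚ_[2]] PadicAlgCl 2) (x : PadicAlgCl 2) : ‖σ x‖ = ‖x‖ := by
  have h := spectralNorm_eq_of_equiv σ x
  rw [PadicAlgCl.spectralNorm_eq, PadicAlgCl.spectralNorm_eq] at h
  exact h.symm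

theorem norm_odd {n : ℕ} (hn : ¬ 2 ∣ n) : ‖(n : PadicAlgCl 2)‖ = 1 := by
  have h : ‖((n : ℚ_[2]) : PadicAlgCl 2)‖ = ‖(n : ℚ_[2])‖ := PadicAlgCl.norm_extends 2 (n : ℚ_[2])
  rw [map_natCast] at h
  rw [h, Padic.norm_natCast_eq_one_iff]
  exact (Nat.Prime.coprime_iff_not_dvd Nat.prime_two).2 hn

theorem norm_two_lt : ‖(2 : PadicAlgCl 2)‖ < 1 := by
  have h : ‖((2 : ℚ_[2]) : PadicAlgCl 2)‖ = ‖(2 : ℚ_[2])‖ := PadicAlgCl.norm_extends 2 (2 : ℚ_[2])
  rw [map_ofNat] at h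
  rw [h]
  have h2 := Padic.norm_p (p := 2)
  push_cast at h2
  rw [h2]
  norm_num

theorem norm_root {n : ℕ} (hn : n ≠ 0) {a : PadicAlgCl 2} (ha : a ^ n = 1) : ‖a‖ = 1 := by
  have h : ‖a‖ ^ n = 1 := by rw [← norm_pow, ha, norm_one]
  exact (pow_eq_one_iff_of_nonneg (norm_nonneg a) hn).1 h

/-- the ultrametric inequality for finite sums -/
theorem norm_sum_le' {ι : Type} (s : Finset ι) (f : ι → PadicAlgCl 2) {c : ℝ} (hc : 0 ≤ c)
    (h : ∀ i ∈ s, ‖f i‖ ≤ c) : ‖∑ i ∈ s, f i‖ ≤ c :=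
  IsUltrametricDist.norm_sum_le_of_forall_le_of_nonneg hc h

theorem norm_one_sub {n : ℕ} (hn : ¬ 2 ∣ n) {w : PadicAlgCl 2} (hw : w ^ n = 1) (hw1 : w ≠ 1) :
    ‖1 - w‖ = 1 := by
  have hn0 : n ≠ 0 := by
    rintro rfl
    exact hn (dvd_zero 2)
  have hw' := norm_root hn0 hw
  have hle : ‖1 - w‖ ≤ 1 := by
    rw [sub_eq_add_neg]
    refine (IsUltrametricDist.norm_add_le_max _ _).trans ?_
    rw [norm_neg, hw', norm_one, max_self]
  by_contra hne
  have hlt : ‖1 - w‖ < 1 := lt_of_le_of_ne hle hne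
  have hgeom : ∑ i ∈ Finset.range n, w ^ i = 0 := by
    have h := mul_neg_geom_sum w n
    rw [hw, sub_self] at h
    rcases mul_eq_zero.1 h with h1 | h1
    · exact absurd (sub_eq_zero.1 h1).symm hw1
    · exact h1
  have hsum : (n : PadicAlgCl 2) = ∑ i ∈ Finset.range n, (1 - w ^ i) := by
    rw [Finset.sum_sub_distrib, hgeom, sub_zero]
    simp
  have h2 : ‖(n : PadicAlgCl 2)‖ ≤ ‖1 - w‖ := by
    rw [hsum]
    refine norm_sum_le' _ _ (norm_nonneg _) fun i _ => ?_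
    rw [← mul_neg_geom_sum w i, norm_mul]
    have h3 : ‖∑ j ∈ Finset.range i, w ^ j‖ ≤ 1 := by
      refine norm_sum_le' _ _ zero_le_one fun j _ => ?_
      rw [norm_pow, hw', one_pow]
    calc ‖1 - w‖ * ‖∑ j ∈ Finset.range i, w ^ j‖ ≤ ‖1 - w‖ * 1 :=
          mul_le_mul_of_nonneg_left h3 (norm_nonneg _)
      _ = ‖1 - w‖ := mul_one _
  rw [norm_odd hn] at h2
  linarith

theorem norm_sub_root {n : ℕ} (hn : ¬ 2 ∣ n) {a b : PadicAlgCl 2} (ha : a ^ n = 1) (hb : b ^ n = 1)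
    (hab : a ≠ b) : ‖a - b‖ = 1 := by
  have hn0 : n ≠ 0 := by
    rintro rfl
    exact hn (dvd_zero 2)
  have hb0 : b ≠ 0 := by
    rintro rfl
    rw [zero_pow hn0] at hb
    exact zero_ne_one hb
  have ha0 : a ≠ 0 := by
    rintro rfl
    rw [zero_pow hn0] at ha
    exact zero_ne_one ha
  have h1 := norm_one_sub hn (w := b / a) (by rw [div_pow, ha, hb, div_one])
    (fun h => hab ((div_eq_one_iff_eq ha0).1 h).symm)
  have h2 : a - b = a * (1 - b / a) := by field_simp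
  rw [h2, norm_mul, norm_root hn0 ha, h1, one_mul]

theorem odd_n {l : ℕ} (hl : 0 < l) : ¬ 2 ∣ 2 ^ l - 1 := by
  have h1 : 2 ∣ 2 ^ l := dvd_pow_self 2 (by omega)
  have h2 : 1 ≤ 2 ^ l := Nat.one_le_two_pow
  omega

/-- polynomials with integral coefficients -/
def Int1 (f : (PadicAlgCl 2)[X]) : Prop := ∀ n, ‖f.coeff n‖ ≤ 1

theorem Int1.mul {f g : (PadicAlgCl 2)[X]} (hf : Int1 f) (hg : Int1 g) : Int1 (f * g) := by
  intro n
  rw [coeff_mul]
  refine IsUltrametricDist.norm_sum_le_of_forall_le_of_nonneg zero_le_one fun i _ => ?_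
  rw [norm_mul]
  exact mul_le_one₀ (hf _) (norm_nonneg _) (hg _)

theorem Int1.prod {ι : Type} (s : Finset ι) (f : ι → (PadicAlgCl 2)[X]) (h : ∀ i ∈ s, Int1 (f i)) :
    Int1 (∏ i ∈ s, f i) := by
  refine Finset.prod_induction _ Int1 (fun a b => Int1.mul) ?_ h
  intro n
  rw [coeff_one]
  split_ifs <;> simp

theorem int1_lin {a b : PadicAlgCl 2} (hb : ‖b‖ ≤ 1) (hab : ‖a - b‖ = 1) :
    Int1 (C (a - b)⁻¹ * (X - C b)) := by
  intro n
  rw [coeff_C_mul, norm_mul, norm_inv, hab, inv_one, one_mul, coeff_sub, coeff_X, coeff_C]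
  rcases Nat.lt_or_ge 1 n with h | h
  · rw [if_neg (by omega), if_neg (by omega)]
    simp
  · interval_cases n
    · simp [hb]
    · simp

theorem unr : S_UNR := by
  classical
  intro l hl ζ hζ x hx hx1
  set n := 2 ^ l - 1 with hn
  have hodd : ¬ 2 ∣ n := odd_n hl
  have hn0 : n ≠ 0 := by
    rintro h
    exact hodd (h ▸ dvd_zero 2)
  have hint : IsIntegral ℚ_[2] ζ := Algebra.IsIntegral.isIntegral ζ
  -- `x` is a polynomial in `ζ`
  obtain ⟨g, hg, hgd⟩ : ∃ g : ℚ_[2][X], aeval ζ g = x ∧ g.degree < (minpoly ℚ_[2] ζ).degree := by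
    have h1 : x ∈ Algebra.adjoin ℚ_[2] ({ζ} : Set (PadicAlgCl 2)) := by
      rw [← IntermediateField.adjoin_simple_toSubalgebra_of_isAlgebraic hint.isAlgebraic]
      exact hx
    rw [Algebra.adjoin_singleton_eq_range_aeval] at h1
    obtain ⟨g, hg⟩ := h1
    refine ⟨g %ₘ minpoly ℚ_[2] ζ, ?_, degree_modByMonic_lt _ (minpoly.monic hint)⟩
    rw [← hg]
    have h2 := congrArg (aeval ζ) (modByMonic_add_div g (minpoly ℚ_[2] ζ))
    rw [map_add, map_mul, minpoly.aeval, zero_mul, add_zero] at h2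
    exact h2
  set m := minpoly ℚ_[2] ζ with hm
  set s : Finset (PadicAlgCl 2) := (m.rootSet (PadicAlgCl 2)).toFinset with hs
  have hmem : ∀ ρ ∈ s, ∃ σ : PadicAlgCl 2 ≃ₐ[ℚ_[2]] PadicAlgCl 2, σ ζ = ρ := by
    intro ρ hρ
    rw [hs, Set.mem_toFinset] at hρ
    have h1 : IsConjRoot ℚ_[2] ζ ρ := (isConjRoot_iff_mem_minpoly_rootSet hint).2 hρ
    exact isConjRoot_iff_exists_algEquiv.1 h1.symm
  have hroot : ∀ ρ ∈ s, ρ ^ n = 1 := by
    intro ρ hρ
    obtain ⟨σ, rfl⟩ := hmem ρ hρ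
    rw [← map_pow, hζ.pow_eq_one, map_one]
  have hcard : (s.card : WithBot ℕ) = m.degree := by
    have h1 : s.card = m.natDegree := by
      rw [hs, Set.toFinset_card]
      exact card_rootSet_eq_natDegree (minpoly.irreducible hint).separable
        (IsAlgClosed.splits _)
    rw [h1, degree_eq_natDegree (minpoly.ne_zero hint)]
  have hlag := Lagrange.eq_interpolate (s := s) (v := id)
    (f := g.map (algebraMap ℚ_[2] (PadicAlgCl 2))) (Set.injOn_id _)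
    (by
      rw [degree_map]
      have : (s.card : WithBot ℕ) = m.degree := hcard
      rw [this]
      exact hgd)
  have hcoef : ∀ k, ‖g.coeff k‖ ≤ ‖x‖ := by
    intro k
    have h1 : ‖((g.coeff k : ℚ_[2]) : PadicAlgCl 2)‖ = ‖g.coeff k‖ := PadicAlgCl.norm_extends 2 _
    rw [← h1, ← coeff_map, hlag, Lagrange.interpolate_apply, finsetSum_coeff]
    refine norm_sum_le' _ _ (norm_nonneg _) fun ρ hρ => ?_
    rw [coeff_C_mul, norm_mul]
    have h2 : ‖(g.map (algebraMap ℚ_[2] (PadicAlgCl 2))).eval (id ρ)‖ = ‖x‖ := by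
      obtain ⟨σ, rfl⟩ := hmem ρ hρ
      rw [id, eval_map_algebraMap, aeval_algHom_apply, hg, norm_gal]
    rw [h2]
    have h3 : Int1 (Lagrange.basis s id ρ) := by
      unfold Lagrange.basis
      refine Int1.prod _ _ fun b hb => ?_
      rw [Finset.mem_erase] at hb
      unfold Lagrange.basisDivisor
      exact int1_lin (norm_root hn0 (hroot b hb.2)).le
        (norm_sub_root hodd (hroot ρ hρ) (hroot b hb.2) (Ne.symm hb.1))
    calc ‖x‖ * ‖(Lagrange.basis s id ρ).coeff k‖ ≤ ‖x‖ * 1 :=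
          mul_le_mul_of_nonneg_left (h3 k) (norm_nonneg _)
      _ = ‖x‖ := mul_one _
  have hcoef2 : ∀ k, ‖g.coeff k‖ ≤ 1 / 2 := by
    intro k
    have h1 : ‖g.coeff k‖ < ((2 : ℕ) : ℝ) ^ ((-1 : ℤ) + 1) := by
      rw [neg_add_cancel, zpow_zero]
      exact (hcoef k).trans_lt hx1
    have h2 := (Padic.norm_le_pow_iff_norm_lt_pow_add_one (p := 2) (g.coeff k) (-1)).2 h1
    refine h2.trans_eq ?_
    norm_num
  rw [← hg, aeval_eq_sum_range]
  refine norm_sum_le' _ _ (by norm_num) fun k _ => ?_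
  rw [norm_smul, norm_pow, norm_root hn0 hζ.pow_eq_one, one_pow, mul_one]
  exact hcoef2 k

end Pool.Agent.P8H62.QC
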